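import Pool.Agent.Helper238.Rob.M
import Pool.Agent.Helper238.Rob.O

set_option autoImplicit false

namespace Pool.Agent.K4H81.Rob

open Pool.Agent.Helper238.Rob

/-- first case: the unweighted transplant, quantitative -/
theorem keyI {z w r d : ℝ} (hz0 : 0 < z) (hz : z ≤ 1 / 6) (hr1 : 1 + z ≤ r)
    (hr2 : r ≤ 1 + z / (9 * (1 - z)) + 8 * z / (9 * (1 - 4 * z))) (hw : w = 2 * (1 - 4 * z) * r)
    (hd : d = 6 * (1 - 2 * z) - 3 / 2 * w - 3 / 4 * (1 - z) * w ^ 2) :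
    (r + 1) * d < 2 * (1 - 2 * z) * (w + 4) := by
  have hb : 0 < 1 - 4 * z := by linarith
  have ha : 0 < 1 - z := by linarith
  have hrpos : 0 < r := by linarith
  have hwpos : 0 < w := by rw [hw]; positivity
  have h2z : 0 < 1 - 2 * z := by linarith
  by_cases hd0 : d ≤ 0
  · have h1 : (r + 1) * d ≤ 0 := mul_nonpos_of_nonneg_of_nonpos (by linarith) hd0
    have h2 : 0 < 2 * (1 - 2 * z) * (w + 4) := by positivity
    linarith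
  push Not at hd0
  obtain ⟨d1, hd1⟩ : ∃ d1, d1 = 18 * z - 9 * z ^ 2 - 69 * z ^ 3 + 24 * z ^ 4 + 48 * z ^ 5 := ⟨_, rfl⟩
  have e1 : d ≤ d1 := by
    have hw1 : 2 * (1 - 4 * z) * (1 + z) ≤ w := by rw [hw]; gcongr
    have hw0 : 0 ≤ 2 * (1 - 4 * z) * (1 + z) := by positivity
    have hw2 : (2 * (1 - 4 * z) * (1 + z)) ^ 2 ≤ w ^ 2 := by gcongr
    have hw3 := mul_le_mul_of_nonneg_left hw2 (by positivity : (0:ℝ) ≤ 3 / 4 * (1 - z))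
    rw [hd, hd1]
    nlinarith
  have e2 : 0 ≤ d1 := by linarith
  obtain ⟨r2, hr2e⟩ : ∃ r2, r2 = 1 + z / (9 * (1 - z)) + 8 * z / (9 * (1 - 4 * z)) := ⟨_, rfl⟩
  rw [← hr2e] at hr2
  have e3 : (r + 1) * d ≤ (r2 + 1) * d1 := by
    apply mul_le_mul (by linarith) e1 hd0.le (by linarith)
  have e4 : (r2 + 1) * d1 < 2 * (1 - 2 * z) * (2 * (1 - 4 * z) * (1 + z) + 4) := by
    have e5 : (r2 + 1) = (18 * ((1 - z) * (1 - 4 * z)) + (1 - 4 * z) * z + 8 * ((1 - z) * z)) / (9 * (1 - z) * (1 - 4 * z)) := by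
      rw [hr2e, eq_div_iff (by positivity)]
      have i1 : z / (9 * (1 - z)) * (9 * (1 - z) * (1 - 4 * z)) = z * (1 - 4 * z) := by
        rw [div_mul_eq_mul_div, div_eq_iff (by positivity)]; ring
      have i2 : 8 * z / (9 * (1 - 4 * z)) * (9 * (1 - z) * (1 - 4 * z)) = 8 * z * (1 - z) := by
        rw [div_mul_eq_mul_div, div_eq_iff (by positivity)]; ring
      linear_combination i1 + i2
    rw [e5, div_mul_eq_mul_div, div_lt_iff₀ (by positivity), hd1]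
    obtain ⟨t, ht⟩ : ∃ t, t = 1 / 6 - z := ⟨_, rfl⟩
    have hz' : z = 1 / 6 - t := by linarith
    have ht0 : 0 ≤ t := by linarith
    have ht1 : t ≤ 1 / 6 := by linarith
    have hpoly : 2 * (1 - 2 * z) * (2 * (1 - 4 * z) * (1 + z) + 4) * (9 * (1 - z) * (1 - 4 * z))
        - (18 * ((1 - z) * (1 - 4 * z)) + (1 - 4 * z) * z + 8 * ((1 - z) * z)) * (18 * z - 9 * z ^ 2 - 69 * z ^ 3 + 24 * z ^ 4 + 48 * z ^ 5)
        = 3053 / 3888 + 32083 / 162 * t + 17879 / 9 * t ^ 2 + 39943 / 9 * t ^ 3 - 2309 / 3 * t ^ 4 - 7140 * t ^ 5 - 912 * t ^ 6 + 2880 * t ^ 7 := by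
      rw [hz']; ring
    have b4 : t ^ 4 ≤ 1 / 6 * t ^ 3 := by
      calc t ^ 4 = t * t ^ 3 := by ring
        _ ≤ 1 / 6 * t ^ 3 := by gcongr
    have b5 : t ^ 5 ≤ 1 / 36 * t ^ 3 := by
      calc t ^ 5 = t * t ^ 4 := by ring
        _ ≤ 1 / 6 * (1 / 6 * t ^ 3) := by gcongr
        _ = _ := by ring
    have b6 : t ^ 6 ≤ 1 / 216 * t ^ 3 := by
      calc t ^ 6 = t * t ^ 5 := by ring
        _ ≤ 1 / 6 * (1 / 36 * t ^ 3) := by gcongr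
        _ = _ := by ring
    have b7 : 0 ≤ t ^ 7 := by positivity
    have b2 : 0 ≤ t ^ 2 := by positivity
    have b3 : 0 ≤ t ^ 3 := by positivity
    linarith
  have e6 : 2 * (1 - 2 * z) * (2 * (1 - 4 * z) * (1 + z) + 4) ≤ 2 * (1 - 2 * z) * (w + 4) := by
    have : 0 ≤ 2 * (1 - 2 * z) := by linarith
    rw [hw]
    gcongr
  linarith

theorem caseI_q {z w r' d p1 p2 p3 : ℝ} (hz0 : 0 < z) (hz : z ≤ 1 / 6) (hw : 0 < w)
    (hd : d = 6 * (1 - 2 * z) - 3 / 2 * w - 3 / 4 * (1 - z) * w ^ 2)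
    (hp1 : 0 < p1) (hp2 : 0 < p2) (hp3 : 0 < p3)
    (hs : 3 ≤ (p1 + p2 + p3) ^ 2 - 2 * (p1 ^ 2 + p2 ^ 2 + p3 ^ 2))
    (hr : p1 + p2 + p3 ≤ 3 * r') :
    Qh z w p1 p2 p3 1 1 1
      ≤ -(3 / 2 * min (2 * (1 - 2 * z) * (w + 4)) (2 * (1 - 2 * z) * (w + 4) - (r' + 1) * d))
          * (p1 + p2 + p3 - 3) := by
  have hσ := sigma_ge hp1 hp2 hp3 hs
  obtain ⟨σ, hσe⟩ : ∃ σ, σ = p1 + p2 + p3 := ⟨_, rfl⟩
  obtain ⟨S, hS⟩ : ∃ S, S = p1 ^ 2 + p2 ^ 2 + p3 ^ 2 := ⟨_, rfl⟩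
  have hQ : Qh z w p1 p2 p3 1 1 1 = d * (S - 3) - 3 * (1 - 2 * z) * (w + 4) * (σ - 3) := by
    unfold Qh qG1 qG2 qm1 qm2 q00 qgg qgs q01
    rw [hd, hS, hσe]; ring
  rw [hQ, ← hσe]
  rw [← hσe, ← hS] at hs
  rw [← hσe] at hσ hr
  have hS3 : 3 ≤ S := by
    rw [hS]; rw [hσe] at hσ
    nlinarith [sq_nonneg (p1 - p2), sq_nonneg (p2 - p3), sq_nonneg (p1 - p3)]
  obtain ⟨K, hK⟩ : ∃ K, K = 2 * (1 - 2 * z) * (w + 4) := ⟨_, rfl⟩
  have e3 : 3 * (1 - 2 * z) * (w + 4) = 3 / 2 * K := by rw [hK]; ring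
  rw [← hK, e3]
  by_cases hd0 : d ≤ 0
  · have h1 : d * (S - 3) ≤ 0 := mul_nonpos_of_nonpos_of_nonneg hd0 (by linarith)
    have h2 : min K (K - (r' + 1) * d) * (σ - 3) ≤ K * (σ - 3) :=
      mul_le_mul_of_nonneg_right (min_le_left _ _) (by linarith)
    linarith
  push Not at hd0
  have h1 : d * (S - 3) ≤ d * ((σ - 3) * (σ + 3) / 2) := by
    apply mul_le_mul_of_nonneg_left _ hd0.le
    nlinarith
  have h2 : d * (σ + 3) / 2 ≤ d * (3 * r' + 3) / 2 := by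
    have := mul_le_mul_of_nonneg_left hr hd0.le
    linarith
  have h3 : d * (S - 3) ≤ (σ - 3) * (d * (3 * r' + 3) / 2) := by
    have := mul_le_mul_of_nonneg_left h2 (by linarith : 0 ≤ σ - 3)
    linarith
  have h4 : min K (K - (r' + 1) * d) * (σ - 3) ≤ (K - (r' + 1) * d) * (σ - 3) :=
    mul_le_mul_of_nonneg_right (min_le_right _ _) (by linarith)
  linarith

/-- second case: the weighted transplant, quantitative -/
theorem caseII_q {z w p1 p2 p3 : ℝ} (hz0 : 1 / 6 ≤ z) (hz : z < 1 / 4) (hw0 : 0 ≤ w) (hw1 : w ≤ 1)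
    (hp1 : 0 < p1) (hp2 : 0 < p2) (hp3 : 0 < p3)
    (hσ : 3 ≤ p1 + p2 + p3)
    (harea : 4 * p2 ^ 2 * p3 ^ 2 - (p2 ^ 2 + p3 ^ 2 - p1 ^ 2) ^ 2 = 3)
    (n1 : p2 ^ 2 + p3 ^ 2 - p1 ^ 2 ≤ (1 - 2 * z) * (2 * p2 * p3))
    (n2 : p3 ^ 2 + p1 ^ 2 - p2 ^ 2 ≤ (1 - 2 * z) * (2 * p3 * p1))
    (n3 : p1 ^ 2 + p2 ^ 2 - p3 ^ 2 ≤ (1 - 2 * z) * (2 * p1 * p2)) :
    ∃ a1 a2 a3 : ℝ, (0 < a1 ∧ a1 ≤ 2) ∧ (0 < a2 ∧ a2 ≤ 2) ∧ (0 < a3 ∧ a3 ≤ 2) ∧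
      Qh z w p1 p2 p3 a1 a2 a3 ≤ -(3 * (1 - 2 * z) * (w + 4)) * (p1 + p2 + p3 - 3) := by
  obtain ⟨q, hq⟩ : ∃ q, q = (p1 ^ 2 + p2 ^ 2 + p3 ^ 2) / 3 := ⟨_, rfl⟩
  obtain ⟨x1, hx1⟩ : ∃ x1, x1 = p1 ^ 2 - q := ⟨_, rfl⟩
  obtain ⟨x2, hx2⟩ : ∃ x2, x2 = p2 ^ 2 - q := ⟨_, rfl⟩
  have h1 : p1 ^ 2 = q + x1 := by rw [hx1]; ring
  have h2 : p2 ^ 2 = q + x2 := by rw [hx2]; ring
  have h3 : p3 ^ 2 = q + (-x1 - x2) := by rw [hx1, hx2, hq]; ring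
  have hq0 : 0 < q := by rw [hq]; positivity
  obtain ⟨n, hn⟩ : ∃ n, n = x1 ^ 2 + x2 ^ 2 + (-x1 - x2) ^ 2 := ⟨_, rfl⟩
  have hn0 : 0 ≤ n := by rw [hn]; positivity
  have hqn : q ^ 2 = 1 + 2 / 3 * n := by
    rw [hn]
    have e : 4 * p2 ^ 2 * p3 ^ 2 - (p2 ^ 2 + p3 ^ 2 - p1 ^ 2) ^ 2 = 3 * q ^ 2 - 2 * (x1 ^ 2 + x2 ^ 2 + (-x1 - x2) ^ 2) := by
      rw [h1, h2, h3]; ring
    rw [e] at harea
    linarith
  have hsh := shape hz0 hz hq0 (by ring : x1 + x2 + (-x1 - x2) = 0) h1 h2 h3 hp1 hp2 hp3 (by rw [← hn]; exact hqn) n1 n2 n3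
  rw [← hn] at hsh
  obtain ⟨b, hb⟩ : ∃ b, b = 1 - 4 * z := ⟨_, rfl⟩
  have hb0 : 0 < b := by rw [hb]; linarith
  have hb1 : b ≤ 1 / 3 := by rw [hb]; linarith
  rw [← hb] at hsh
  obtain ⟨R, hR⟩ : ∃ R, R = Real.sqrt (2 / 3 * n) := ⟨_, rfl⟩
  have hR0 : 0 ≤ R := by rw [hR]; exact Real.sqrt_nonneg _
  have hR2 : R ^ 2 = 2 / 3 * n := by rw [hR]; exact Real.sq_sqrt (by positivity)
  have hRb : R ≤ 26 / 15 * b := by
    rw [hR]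
    exact Real.sqrt_le_iff.2 ⟨by positivity, by nlinarith only [hsh, sq_nonneg b]⟩
  -- bounds for q
  have hq1 : 1 ≤ q := by nlinarith
  have hqR : q - 1 ≤ R ^ 2 / 2 := by nlinarith
  have hqR' : q - 1 ≤ 3 / 2 * b ^ 2 := by rw [hR2] at hqR; linarith
  have hq3 : 3 * (q - 1) ≤ n := by nlinarith
  -- |x_i| ≤ R
  have hxR : ∀ y : ℝ, y ^ 2 ≤ 2 / 3 * n → |y| ≤ R := by
    intro y hy
    rw [hR]; exact Real.abs_le_sqrt hy
  have r1 := hxR x1 (by rw [hn]; nlinarith [sq_nonneg (x1 + 2 * x2)])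
  have r2 := hxR x2 (by rw [hn]; nlinarith [sq_nonneg (x2 + 2 * x1)])
  have r3 := hxR (-x1 - x2) (by rw [hn]; nlinarith [sq_nonneg (x1 - x2)])
  have s1 := (abs_le.1 r1).2
  have s2 := (abs_le.1 r2).2
  have s3 := (abs_le.1 r3).2
  -- e3
  obtain ⟨e3, he3⟩ : ∃ e3, e3 = x1 * x2 * (-x1 - x2) := ⟨_, rfl⟩
  have he3b : e3 ≤ n * R / 6 := by
    have hsq : e3 ^ 2 ≤ (n * R / 6) ^ 2 := by
      have e : (n * R / 6) ^ 2 = n ^ 3 / 54 := by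
        have : (n * R / 6) ^ 2 = n ^ 2 * R ^ 2 / 36 := by ring
        rw [this, hR2]; ring
      have e' : n ^ 3 / 54 - e3 ^ 2 = ((x1 - x2) * (2 * x1 + x2) * (x1 + 2 * x2)) ^ 2 / 27 := by
        rw [hn, he3]; ring
      have : 0 ≤ ((x1 - x2) * (2 * x1 + x2) * (x1 + 2 * x2)) ^ 2 / 27 := by positivity
      rw [e]; linarith
    exact le_of_abs_le (abs_le_of_sq_le_sq hsq (by positivity))
  -- S1
  obtain ⟨c0, hc0⟩ : ∃ c0, c0 = 1 / 2 - 41 / 120 * b := ⟨_, rfl⟩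
  have hc0p : 0 < c0 := by rw [hc0]; linarith
  have hS1 : c0 * n ≤ x1 * p1 + x2 * p2 + (-x1 - x2) * p3 := by
    obtain ⟨g, hg⟩ : ∃ g, g = Real.sqrt q := ⟨_, rfl⟩
    have hg0 : 0 < g := by rw [hg]; exact Real.sqrt_pos.2 hq0
    have hg2 : g ^ 2 = q := by rw [hg]; exact Real.sq_sqrt hq0.le
    have j1 := S1_point hp1 hg0 hg2 h1 s1 hqR' hRb hb0 hb1 hc0
    have j2 := S1_point hp2 hg0 hg2 h2 s2 hqR' hRb hb0 hb1 hc0
    have j3 := S1_point hp3 hg0 hg2 h3 s3 hqR' hRb hb0 hb1 hc0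
    rw [hn]
    linarith only [j1, j2, j3]
  -- S2
  have hS2 : p1 * x1 ^ 2 + p2 * x2 ^ 2 + p3 * (-x1 - x2) ^ 2 ≤ ((1 + q) * n + 3 * e3) / 2 := by
    have hone : ∀ x p : ℝ, p ^ 2 = q + x → p * x ^ 2 ≤ (1 + q + x) / 2 * x ^ 2 := by
      intro x p hpx
      have i1 := le_half_one_add_sq (p := p)
      rw [hpx] at i1
      have : p ≤ (1 + q + x) / 2 := by linarith
      gcongr
    have j1 := hone x1 p1 h1
    have j2 := hone x2 p2 h2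
    have j3 := hone (-x1 - x2) p3 h3
    have e : (1 + q + x1) / 2 * x1 ^ 2 + (1 + q + x2) / 2 * x2 ^ 2 + (1 + q + (-x1 - x2)) / 2 * (-x1 - x2) ^ 2
        = ((1 + q) * n + 3 * e3) / 2 := by rw [hn, he3]; ring
    linarith
  obtain ⟨τ, hτ⟩ : ∃ τ, τ = 1 / (2 * b) := ⟨_, rfl⟩
  have hτ0 : 0 < τ := by rw [hτ]; positivity
  have hτb : τ * b = 1 / 2 := by rw [hτ]; field_simp
  have hapos : ∀ x : ℝ, x ≤ R → 0 < 1 - τ * x := by
    intro x hx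
    have : τ * x ≤ τ * (26 / 15 * b) := by
      apply mul_le_mul_of_nonneg_left _ hτ0.le; linarith
    have h5 : τ * (26 / 15 * b) = 26 / 30 := by
      have : τ * (26 / 15 * b) = 26 / 15 * (τ * b) := by ring
      rw [this, hτb]; norm_num
    linarith
  have hale : ∀ x : ℝ, -R ≤ x → 1 - τ * x ≤ 2 := by
    intro x hx
    have : τ * (-x) ≤ τ * (26 / 15 * b) := by
      apply mul_le_mul_of_nonneg_left _ hτ0.le; linarith
    have h5 : τ * (26 / 15 * b) = 26 / 30 := by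
      have : τ * (26 / 15 * b) = 26 / 15 * (τ * b) := by ring
      rw [this, hτb]; norm_num
    linarith
  refine ⟨1 - τ * x1, 1 - τ * x2, 1 - τ * (-x1 - x2), ⟨hapos _ s1, hale _ (abs_le.1 r1).1⟩,
    ⟨hapos _ s2, hale _ (abs_le.1 r2).1⟩, ⟨hapos _ s3, hale _ (abs_le.1 r3).1⟩, ?_⟩
  rw [Qh_expand h1 h2 h3, ← hn, ← he3]
  have hz4 : z ≤ 1 / 4 := hz.le
  have hz00 : 0 ≤ z := by linarith
  have pd := fd_nonneg hz4 hz00 hw0 hw1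
  have pD := fD_nonneg hz4 hz00 hw0 hw1
  have pT1 := fT1_nonneg hz0 hz4 hw0 hw1
  have pT2 := fT2_nonneg hz0 hz4 hw0 hw1
  have pC := fCp_nonneg hz0 hz4 hw0 hw1
  have pP := Pneg hz0 hz4 hw0 hw1
  rw [← hb, ← hc0] at pP
  have hT1e : fT1 z w = qG1 z w + qG2 z w / 2 + fCp z w / 2 := by
    unfold fT1 qG1 qG2 fCp; ring
  have hT2e : fT2 z w = 3 * qG1 z w + 6 * qG2 z w + 3 / 2 * fCp z w := by
    unfold fT2 qG1 qG2 fCp; ring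
  have hDe : 3 / 2 * (b * fD z w) = qG1 z w + qG2 z w / 2 + qm1 z w - qm2 z w - 3 * (4 * z * fD z w) + fCp z w := by
    rw [hb]; unfold fD qG1 qG2 qm1 qm2 fCp; ring
  -- bound of the bracket
  have B1 : 0 ≤ 3 * (1 - 2 * z) * (w + 4) * (p1 + p2 + p3 - 3) := by
    have : 0 ≤ 1 - 2 * z := by linarith
    have : 0 ≤ p1 + p2 + p3 - 3 := by linarith
    positivity
  have B2 : 3 * fd z w * (q - 1) ≤ fd z w * n := by
    have := mul_le_mul_of_nonneg_left hq3 pd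
    linarith
  have B3 : fd z w * n + 3 * z * (w + 4) * (c0 * n)
      ≤ fd z w * n + 3 * z * (w + 4) * (x1 * p1 + x2 * p2 + (-x1 - x2) * p3) := by
    have : 0 ≤ 3 * z * (w + 4) := by positivity
    gcongr
  have B4 : n * (qG1 z w * q + qG2 z w * q / 2 + qm1 z w - qm2 z w - (p1 + p2 + p3) * (4 * z * fD z w))
            + e3 * (3 * qG1 z w + 6 * qG2 z w)
            + fCp z w * (p1 * x1 ^ 2 + p2 * x2 ^ 2 + p3 * (-x1 - x2) ^ 2)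
      ≤ n * (3 / 2 * (b * fD z w) + 3 / 2 * b ^ 2 * fT1 z w + 13 / 45 * b * fT2 z w) := by
    have c1 : n * ((p1 + p2 + p3) * (4 * z * fD z w)) ≥ n * (3 * (4 * z * fD z w)) := by
      have : 0 ≤ 4 * z * fD z w := by positivity
      gcongr
    have c2 := mul_le_mul_of_nonneg_left hS2 pC
    have c3 : e3 * fT2 z w ≤ (n * R / 6) * fT2 z w := by gcongr
    have c4 : (n * R / 6) * fT2 z w ≤ (n * (26 / 15 * b) / 6) * fT2 z w := by gcongr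
    have c5 : n * ((q - 1) * fT1 z w) ≤ n * ((3 / 2 * b ^ 2) * fT1 z w) := by gcongr
    have e : n * (qG1 z w * q + qG2 z w * q / 2 + qm1 z w - qm2 z w - 3 * (4 * z * fD z w))
        + e3 * (3 * qG1 z w + 6 * qG2 z w) + fCp z w * (((1 + q) * n + 3 * e3) / 2)
        = n * (3 / 2 * (b * fD z w)) + n * ((q - 1) * fT1 z w) + e3 * fT2 z w := by
      rw [hT1e, hT2e, hDe]; ring
    linarith
  have B5 := mul_le_mul_of_nonneg_left B4 (sq_nonneg τ)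
  have B6 := mul_le_mul_of_nonneg_left B3 (by positivity : 0 ≤ 2 * τ)
  have hfin : fd z w * n - 2 * τ * (fd z w * n + 3 * z * (w + 4) * (c0 * n))
      + τ ^ 2 * (n * (3 / 2 * (b * fD z w) + 3 / 2 * b ^ 2 * fT1 z w + 13 / 45 * b * fT2 z w)) ≤ 0 := by
    have e : b * (fd z w * n - 2 * τ * (fd z w * n + 3 * z * (w + 4) * (c0 * n))
      + τ ^ 2 * (n * (3 / 2 * (b * fD z w) + 3 / 2 * b ^ 2 * fT1 z w + 13 / 45 * b * fT2 z w)))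
        = n * (-4 * z * fd z w - 3 * z * (w + 4) * c0
      + 1 / 4 * (3 / 2 * fD z w + 3 / 2 * b * fT1 z w + 13 / 45 * fT2 z w)) := by
      have e1 : b * (fd z w * n - 2 * τ * (fd z w * n + 3 * z * (w + 4) * (c0 * n))
      + τ ^ 2 * (n * (3 / 2 * (b * fD z w) + 3 / 2 * b ^ 2 * fT1 z w + 13 / 45 * b * fT2 z w)))
        = b * (fd z w * n) - 2 * (τ * b) * (fd z w * n + 3 * z * (w + 4) * (c0 * n))
          + (τ * b) ^ 2 * (n * (3 / 2 * fD z w + 3 / 2 * b * fT1 z w + 13 / 45 * fT2 z w)) := by ring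
      rw [e1, hτb]
      have : b * (fd z w * n) = (1 - 4 * z) * (fd z w * n) := by rw [hb]
      rw [this]; ring
    have h7 : n * (-4 * z * fd z w - 3 * z * (w + 4) * c0
      + 1 / 4 * (3 / 2 * fD z w + 3 / 2 * b * fT1 z w + 13 / 45 * fT2 z w)) ≤ 0 :=
      mul_nonpos_of_nonneg_of_nonpos hn0 pP
    rw [← e] at h7
    by_contra hcon
    push Not at hcon
    have := mul_pos hb0 hcon
    linarith
  linarith

end Pool.Agent.K4H81.Rob
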