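import Pool.Agent.Helper238.Rob.K
import Pool.Agent.Helper238.Rob.S

set_option autoImplicit false

open MeasureTheory Set

namespace Pool.Agent.K4H81.Rob

open Pool.Agent.Helper238 Pool.Agent.Helper238.Rob

theorem const_q {A B C : E2} (hD : cr (B - A) (C - A) ≠ 0) (P : Par)
    {l p1 p2 p3 r' c : ℝ} (hl : 0 < l) (h1 : dist B C = l * p1) (h2 : dist C A = l * p2) (h3 : dist A B = l * p3)
    (hr : P.r < r') (hr0 : 0 < P.r) (hσ : 3 ≤ p1 + p2 + p3) (hp : 3 * r' ≤ p1 + p2 + p3)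
    (hc : c * |cr (B - A) (C - A)| ^ 2 ≤ 2 * P.k * P.s * l ^ 2 * (1 - P.r / r')) :
    lam1 (interior (tri A B C)) (-(P.k * P.s * l / |cr (B - A) (C - A)|))
      ≤ -((P.k * l / |cr (B - A) (C - A)|) ^ 2 + c * (p1 + p2 + p3 - 3)) := by
  have hk := P.k_pos
  have hs := P.s_pos
  obtain ⟨D, hDD⟩ : ∃ D, D = |cr (B - A) (C - A)| := ⟨_, rfl⟩
  have hD0 : 0 < D := by rw [hDD]; exact abs_pos.2 hD
  apply lam1_le hD (u := fun _ => 1) (by rw [← hDD, neg_lt_zero]; positivity) contDiff_const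
  · simp only [one_pow]
    rw [int_one hD, ← hDD]; positivity
  · have e1 : ∫ x in tri A B C, ‖fderiv ℝ (fun _ : E2 => (1:ℝ)) x‖ ^ 2 = 0 := by simp
    have e2 : ∀ Q R : E2, sI (fun _ => (1:ℝ)) Q R = 1 := by intro Q R; simp [sI]
    rw [e1]
    simp only [one_pow]
    rw [int_one hD]
    unfold bI
    rw [e2, e2, e2, h1, h2, h3, ← hDD]
    rw [← hDD] at hc
    obtain ⟨σ, hσe⟩ : ∃ σ, σ = p1 + p2 + p3 := ⟨_, rfl⟩
    have ek : P.k = 6 * P.s * P.r := by unfold Par.r; field_simp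
    have : 0 + ((P.k * l / D) ^ 2 + c * (p1 + p2 + p3 - 3)) * (D * (1 / 2))
          + -(P.k * P.s * l / D) * (l * p3 * 1 + l * p1 * 1 + l * p2 * 1)
        = (P.k * l ^ 2 / (2 * D)) * (P.k - 2 * P.s * σ) + (c * D ^ 2) * ((σ - 3) / (2 * D)) := by
      rw [hσe]; field_simp; ring
    rw [this]
    rw [← hσe] at hσ hp
    have hr'0 : 0 < r' := by linarith
    have q1 : P.r / r' < 1 := by rw [div_lt_one hr'0]; exact hr
    have q2 : 3 * P.r ≤ P.r / r' * σ := by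
      have : P.r / r' * (3 * r') = 3 * P.r := by field_simp
      rw [← this]
      exact mul_le_mul_of_nonneg_left hp (by positivity)
    have q3 : P.k - 2 * P.s * σ ≤ -(2 * P.s * ((1 - P.r / r') * (σ - 3))) := by
      have e : P.k - 2 * P.s * σ = -(2 * P.s * (σ - 3 * P.r)) := by rw [ek]; ring
      rw [e]
      have : (1 - P.r / r') * (σ - 3) ≤ σ - 3 * P.r := by nlinarith
      have := mul_le_mul_of_nonneg_left this (by positivity : 0 ≤ 2 * P.s)
      linarith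
    have q4 := mul_le_mul_of_nonneg_left q3 (by positivity : 0 ≤ P.k * l ^ 2 / (2 * D))
    have q5 := mul_le_mul_of_nonneg_right hc (by
      apply div_nonneg (by linarith) (by positivity) : 0 ≤ (σ - 3) / (2 * D))
    have e6 : 2 * P.k * P.s * l ^ 2 * (1 - P.r / r') * ((σ - 3) / (2 * D))
        = -(P.k * l ^ 2 / (2 * D) * -(2 * P.s * ((1 - P.r / r') * (σ - 3)))) := by
      field_simp
    rw [e6] at q5
    linarith

theorem corner_q {A B C : E2} (hD : cr (B - A) (C - A) ≠ 0) (P : Par)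
    {l p1 p2 p3 r' c : ℝ} (hl : 0 < l) (hr' : 0 < r') (hpm2 : 1 ≤ 4 * r' * p2) (hpm3 : 1 ≤ 4 * r' * p3)
    (hc0 : 0 ≤ c)
    (hc : c * |cr (B - A) (C - A)| ^ 2
      ≤ 2 * P.k * P.s * l ^ 2 * Real.exp (-(8 * (P.k / (2 * P.s)) * r')))
    (hσ : 3 ≤ p1 + p2 + p3) (h1 : dist B C = l * p1) (h2 : dist C A = l * p2) (h3 : dist A B = l * p3)
    (hp1 : 0 < p1) (hp2 : 0 < p2) (hp3 : 0 < p3)
    (hp : (1 - 2 * P.z) * (2 * p2 * p3) ≤ p2 ^ 2 + p3 ^ 2 - p1 ^ 2) :
    lam1 (interior (tri A B C)) (-(P.k * P.s * l / |cr (B - A) (C - A)|))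
      ≤ -((P.k * l / |cr (B - A) (C - A)|) ^ 2 + c * (p1 + p2 + p3 - 3)) := by
  have hk := P.k_pos
  have hs := P.s_pos
  have hB : cr (C - B) (A - B) ≠ 0 := by rw [cr_cyc A B C]; exact hD
  have hC : cr (A - C) (B - C) ≠ 0 := by rw [cr_cyc2 A B C]; exact hD
  obtain ⟨D, hDD⟩ : ∃ D, D = |cr (B - A) (C - A)| := ⟨_, rfl⟩
  have hD0 : 0 < D := by rw [hDD]; exact abs_pos.2 hD
  have hD2 : cr (B - A) (C - A) ^ 2 = D ^ 2 := by rw [hDD, sq_abs]
  obtain ⟨m, hm⟩ : ∃ m, m = P.k / (2 * P.s) := ⟨_, rfl⟩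
  have hm0 : 0 < m := by rw [hm]; positivity
  obtain ⟨u, hu⟩ : ∃ u : E2 → ℝ, u = fun x => Real.exp (-(m / p2) * bl B C A x + -(m / p3) * bl C A B x) := ⟨_, rfl⟩
  have cu : ContDiff ℝ 1 u := by
    have k1 : ContDiff ℝ 1 (bl B C A) := (contDiff_bl B C A).of_le (by exact_mod_cast le_top)
    have k2 : ContDiff ℝ 1 (bl C A B) := (contDiff_bl C A B).of_le (by exact_mod_cast le_top)
    rw [hu]
    exact ((contDiff_const.mul k1).add (contDiff_const.mul k2)).exp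
  obtain ⟨v1, v2, v3, v4, v5, v6⟩ := dl_vals hD
  have hf : ∀ x, HasFDerivAt u (u x • (-(m / p2) • dl B C A + -(m / p3) • dl C A B)) x := by
    intro x
    have k1 := ((hasFDerivAt_bl B C A x).const_mul (-(m / p2))).add ((hasFDerivAt_bl C A B x).const_mul (-(m / p3)))
    have k2 := k1.exp
    rw [hu]
    exact k2
  have fB : ∀ x, fderiv ℝ u x (B - A) = -(m / p2) * u x := by
    intro x
    rw [(hf x).fderiv]
    simp only [smul_apply, add_apply, smul_eq_mul, v3, v5]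
    ring
  have fC : ∀ x, fderiv ℝ u x (C - A) = -(m / p3) * u x := by
    intro x
    rw [(hf x).fderiv]
    simp only [smul_apply, add_apply, smul_eq_mul, v4, v6]
    ring
  have hcu := cu.continuous
  have l1 : sd (B - A - (C - A)) = (l * p1) ^ 2 := by
    rw [sub_sub_sub_cancel_right, ← norm_sq, ← dist_eq_norm, h1]
  have l2 : sd (C - A) = (l * p2) ^ 2 := by rw [← norm_sq, ← dist_eq_norm, h2]
  have l3 : sd (B - A) = (l * p3) ^ 2 := by rw [← norm_sq, ← dist_eq_norm, dist_comm, h3]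
  have hg : ∀ x, ‖fderiv ℝ u x‖ ^ 2 = (l ^ 2 * m ^ 2 * (2 - (p2 ^ 2 + p3 ^ 2 - p1 ^ 2) / (p2 * p3)) / D ^ 2) * u x ^ 2 := by
    intro x
    rw [nsq _ (B - A) (C - A) hD, l1, l2, l3, hD2, fB, fC]
    field_simp
    ring
  have cv : ContDiff ℝ 1 (fun x => u x ^ 2) := cu.pow 2
  have d1 := dvg (A := C) (B := A) (C := B) hC cv
  have d2 := dvg (A := B) (B := C) (C := A) hB cv
  rw [cr_cyc2 A B C, tri_cyc2, ← hDD] at d1
  rw [cr_cyc A B C, tri_cyc, ← hDD] at d2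
  have gB : ∀ x, fderiv ℝ (fun x => u x ^ 2) x (B - A) = -(2 * m / p2) * u x ^ 2 := by
    intro x
    have h4 := ((hf x).pow 2).fderiv
    have h5 : fderiv ℝ (fun x => u x ^ 2) x = _ := h4
    rw [h5]
    simp only [smul_apply, add_apply, smul_eq_mul, v3, v5]
    simp
    ring
  have gC : ∀ x, fderiv ℝ (fun x => u x ^ 2) x (A - C) = (2 * m / p3) * u x ^ 2 := by
    intro x
    have h4 := ((hf x).pow 2).fderiv
    have h5 : fderiv ℝ (fun x => u x ^ 2) x = _ := h4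
    rw [h5, ← neg_sub C A, map_neg]
    simp only [smul_apply, add_apply, smul_eq_mul, v4, v6]
    simp
    ring
  simp_rw [gB] at d1
  simp_rw [gC] at d2
  rw [integral_const_mul] at d1 d2
  obtain ⟨V, hV⟩ : ∃ V, V = ∫ x in tri A B C, u x ^ 2 := ⟨_, rfl⟩
  rw [← hV] at d1 d2
  rw [sI_symm _ C B] at d1
  rw [sI_symm _ B A] at d2
  have hVpos : 0 < V := by
    rw [hV]
    exact int_sq_pos hD hcu (by intro x; rw [hu]; exact Real.exp_pos _)
  have hVle : V ≤ D * (1 / 2) := by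
    rw [hV, hDD, ← int_one hD]
    apply setIntegral_mono_on (intT (by fun_prop)) (intT (by fun_prop))
      (isCompact_tri A B C).isClosed.measurableSet
    intro x hx
    obtain ⟨_, b2, b3⟩ := (mem_tri_bl hD x).1 hx
    rw [hu]
    have e0 : -(m / p2) * bl B C A x + -(m / p3) * bl C A B x ≤ 0 := by
      have g2 : 0 ≤ m / p2 := by positivity
      have g3 : 0 ≤ m / p3 := by positivity
      nlinarith [mul_nonneg g2 b2, mul_nonneg g3 b3]
    have e1 := Real.exp_le_one_iff.2 e0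
    exact pow_le_one₀ (Real.exp_pos _).le e1
  have hWge : Real.exp (-(8 * m * r')) ≤ sI (fun x => u x ^ 2) B C := by
    unfold sI
    have hci : ContinuousOn (fun τ : ℝ => (fun x => u x ^ 2) (B + τ • (C - B))) (uIcc 0 1) := by
      apply Continuous.continuousOn; fun_prop
    have h0 : ∫ _ in (0:ℝ)..1, Real.exp (-(8 * m * r')) = Real.exp (-(8 * m * r')) := by simp
    rw [← h0]
    apply intervalIntegral.integral_mono_on zero_le_one (by simp) hci.intervalIntegrable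
    intro τ hτ
    have e0 : B + τ • (C - B) = (1 - τ) • B + τ • C := by
      rw [smul_sub, sub_smul, one_smul]; abel
    have e2 := bl_comb (A := B) (B := C) (C := A) hB (1 - τ) τ 0 (by ring)
    have e3 := bl_comb (A := C) (B := A) (C := B) hC τ 0 (1 - τ) (by ring)
    simp only [zero_smul, add_zero] at e2 e3
    rw [add_comm (τ • C)] at e3
    simp only [hu, e0, e2, e3]
    rw [← Real.exp_nat_mul]
    apply Real.exp_le_exp.2
    obtain ⟨t0, t1⟩ := hτ
    have g2 : m / p2 ≤ 4 * m * r' := by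
      rw [div_le_iff₀ hp2]; nlinarith
    have g3 : m / p3 ≤ 4 * m * r' := by
      rw [div_le_iff₀ hp3]; nlinarith
    have k2 := mul_le_mul_of_nonneg_right g2 (by linarith : 0 ≤ 1 - τ)
    have k3 := mul_le_mul_of_nonneg_right g3 t0
    push_cast
    linarith
  apply lam1_le hD (u := u) (by rw [← hDD, neg_lt_zero]; positivity) cu
  · rw [← hV]; exact hVpos
  · simp_rw [hg]
    rw [integral_const_mul, ← hV, ← hDD]
    unfold bI
    rw [h1, h2, h3]
    obtain ⟨W, hW⟩ : ∃ W, W = sI (fun x => u x ^ 2) B C := ⟨_, rfl⟩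
    have hW0 : 0 ≤ W := by rw [hW]; exact sI_nonneg (fun _ => sq_nonneg _) _ _
    have e1 : sI (fun x => u x ^ 2) C A = W + (2 * m / (p2 * D)) * V := by
      rw [← hW] at d1
      field_simp at d1 ⊢
      linarith
    have e2 : sI (fun x => u x ^ 2) A B = W + (2 * m / (p3 * D)) * V := by
      rw [← hW] at d2
      field_simp at d2 ⊢
      linarith
    rw [e1, e2, ← hW]
    rw [← hW] at hWge
    have key0 : ∀ G : ℝ, l ^ 2 * m ^ 2 * (2 - (p2 ^ 2 + p3 ^ 2 - p1 ^ 2) / (p2 * p3)) / D ^ 2 * V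
        + ((P.k * l / D) ^ 2 + c * (p1 + p2 + p3 - 3)) * V + G
        = l ^ 2 * m ^ 2 * (2 - (p2 ^ 2 + p3 ^ 2 - p1 ^ 2) / (p2 * p3)) / D ^ 2 * V + (P.k * l / D) ^ 2 * V + G
          + c * (p1 + p2 + p3 - 3) * V := by intro G; ring
    rw [key0]
    have key : l ^ 2 * m ^ 2 * (2 - (p2 ^ 2 + p3 ^ 2 - p1 ^ 2) / (p2 * p3)) / D ^ 2 * V + (P.k * l / D) ^ 2 * V
        + -(P.k * P.s * l / D) * (l * p3 * (W + 2 * m / (p3 * D) * V) + l * p1 * W + l * p2 * (W + 2 * m / (p2 * D) * V))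
        = (l ^ 2 * P.k ^ 2 / (4 * D ^ 2 * P.z * (p2 * p3))) * ((1 - 2 * P.z) * (2 * p2 * p3) - (p2 ^ 2 + p3 ^ 2 - p1 ^ 2)) * V
          - (P.k * P.s * l ^ 2 / D) * (p1 + p2 + p3) * W := by
      have hz : P.z = P.s ^ 2 := rfl
      rw [hm, hz]
      field_simp
      ring
    rw [key]
    have hz := P.z_pos
    have n1 : (l ^ 2 * P.k ^ 2 / (4 * D ^ 2 * P.z * (p2 * p3))) * ((1 - 2 * P.z) * (2 * p2 * p3) - (p2 ^ 2 + p3 ^ 2 - p1 ^ 2)) * V ≤ 0 := by
      apply mul_nonpos_of_nonpos_of_nonneg _ hVpos.le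
      exact mul_nonpos_of_nonneg_of_nonpos (by positivity) (by linarith)
    have n2 : c * (p1 + p2 + p3 - 3) * V ≤ (P.k * P.s * l ^ 2 / D) * (p1 + p2 + p3) * W := by
      rw [← hDD, ← hm] at hc
      obtain ⟨om, hom⟩ : ∃ om, om = Real.exp (-(8 * m * r')) := ⟨_, rfl⟩
      rw [← hom] at hc hWge
      have hom0 : 0 < om := by rw [hom]; exact Real.exp_pos _
      calc c * (p1 + p2 + p3 - 3) * V ≤ c * (p1 + p2 + p3 - 3) * (D * (1 / 2)) := by
            apply mul_le_mul_of_nonneg_left hVle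
            exact mul_nonneg hc0 (by linarith)
        _ ≤ c * (p1 + p2 + p3) * (D * (1 / 2)) := by
            apply mul_le_mul_of_nonneg_right _ (by positivity)
            apply mul_le_mul_of_nonneg_left _ hc0
            linarith
        _ = (c * D ^ 2) * ((p1 + p2 + p3) / (2 * D)) := by field_simp
        _ ≤ (2 * P.k * P.s * l ^ 2 * om) * ((p1 + p2 + p3) / (2 * D)) := by
            apply mul_le_mul_of_nonneg_right hc; positivity
        _ = (P.k * P.s * l ^ 2 / D) * (p1 + p2 + p3) * om := by field_simp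
        _ ≤ (P.k * P.s * l ^ 2 / D) * (p1 + p2 + p3) * W := by
            apply mul_le_mul_of_nonneg_left hWge; positivity
    linarith

theorem tf_q {A B C : E2} (hD : cr (B - A) (C - A) ≠ 0) (P : Par)
    {l p1 p2 p3 c c1 : ℝ} (hl : 0 < l) (h1 : dist B C = l * p1) (h2 : dist C A = l * p2) (h3 : dist A B = l * p3)
    {a1 a2 a3 : ℝ} (ha1 : 0 < a1 ∧ a1 ≤ 2) (ha2 : 0 < a2 ∧ a2 ≤ 2) (ha3 : 0 < a3 ∧ a3 ≤ 2)
    (hσ : 3 ≤ p1 + p2 + p3)
    (hc0 : 0 ≤ c)
    (hc : c * |cr (B - A) (C - A)| ^ 2 * ((12 * qm1 P.z P.w + 24 * qm2 P.z P.w) * P.b ^ 2)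
      ≤ c1 * (9 * P.z * l ^ 2 * P.w ^ 2))
    (hq : Qh P.z P.w p1 p2 p3 a1 a2 a3 ≤ -c1 * (p1 + p2 + p3 - 3)) :
    lam1 (interior (tri A B C)) (-(P.k * P.s * l / |cr (B - A) (C - A)|))
      ≤ -((P.k * l / |cr (B - A) (C - A)|) ^ 2 + c * (p1 + p2 + p3 - 3)) := by
  have hk := P.k_pos
  have hs := P.s_pos
  have hap := P.a_pos
  have hb := P.b_pos
  have hz := P.z_pos
  have hw := P.w_pos
  have hz4 := P.z_lt
  have e := tf_energy hD P a1 a2 a3 h1 h2 h3
  have em := tf_mass hD P a1 a2 a3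
  have hcu := (contDiff_tf P A B C a1 a2 a3).continuous
  obtain ⟨D, hDD⟩ : ∃ D, D = |cr (B - A) (C - A)| := ⟨_, rfl⟩
  have hD0 : 0 < D := by rw [hDD]; exact abs_pos.2 hD
  apply lam1_le hD (u := tf P A B C a1 a2 a3) (by rw [← hDD, neg_lt_zero]; positivity) (contDiff_tf P A B C a1 a2 a3)
  · apply int_sq_pos hD hcu
    intro x
    unfold tf
    have c1 := ch_pos P (bl A B C x)
    have c2 := ch_pos P (bl B C A x)
    have c3 := ch_pos P (bl C A B x)
    obtain ⟨ha1, _⟩ := ha1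
    obtain ⟨ha2, _⟩ := ha2
    obtain ⟨ha3, _⟩ := ha3
    positivity
  · obtain ⟨V, hV⟩ : ∃ V, V = ∫ x in tri A B C, tf P A B C a1 a2 a3 x ^ 2 := ⟨_, rfl⟩
    rw [← hV] at e em ⊢
    rw [← hDD] at e em hc ⊢
    have e' : (∫ x in tri A B C, ‖fderiv ℝ (tf P A B C a1 a2 a3) x‖ ^ 2)
        + ((P.k * l / D) ^ 2 + c * (p1 + p2 + p3 - 3)) * V
        + (-(P.k * P.s * l / D)) * bI A B C (fun x => tf P A B C a1 a2 a3 x ^ 2)
        = (3 * P.z * l ^ 2 / (D * P.a * P.b ^ 2)) * Qh P.z P.w p1 p2 p3 a1 a2 a3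
          + c * (p1 + p2 + p3 - 3) * V := by
      rw [← e]; ring
    rw [e']
    have m1 : 0 < qm1 P.z P.w := by
      unfold qm1
      have : 0 < 1 - P.z := by linarith
      have : 0 < 1 - 4 * P.z := by linarith
      positivity
    have m2 : 0 < qm2 P.z P.w := by
      unfold qm2
      have : 0 < 1 - P.z := by linarith
      have : 0 < 1 - 4 * P.z := by linarith
      positivity
    have hVle : V ≤ D / (3 * P.a * P.w ^ 2) * (12 * qm1 P.z P.w + 24 * qm2 P.z P.w) := by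
      rw [em]
      apply mul_le_mul_of_nonneg_left _ (by positivity)
      obtain ⟨b1, d1⟩ := ha1
      obtain ⟨b2, d2⟩ := ha2
      obtain ⟨b3, d3⟩ := ha3
      have s1 : a1 ^ 2 ≤ 4 := by nlinarith
      have s2 : a2 ^ 2 ≤ 4 := by nlinarith
      have s3 : a3 ^ 2 ≤ 4 := by nlinarith
      have s4 : a1 * a2 ≤ 4 := by nlinarith
      have s5 : a1 * a3 ≤ 4 := by nlinarith
      have s6 : a2 * a3 ≤ 4 := by nlinarith
      have t1 := mul_le_mul_of_nonneg_left (by linarith : a1 ^ 2 + a2 ^ 2 + a3 ^ 2 ≤ 12) m1.le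
      have t2 := mul_le_mul_of_nonneg_left (by linarith : a1 * a2 + a1 * a3 + a2 * a3 ≤ 12) m2.le
      linarith
    have hg : 0 ≤ c * (p1 + p2 + p3 - 3) := mul_nonneg hc0 (by linarith)
    have n1 := mul_le_mul_of_nonneg_left hVle hg
    have n2 := mul_le_mul_of_nonneg_left hq (by positivity : 0 ≤ 3 * P.z * l ^ 2 / (D * P.a * P.b ^ 2))
    have n3 := mul_le_mul_of_nonneg_right hc (by
      apply div_nonneg (by linarith) (by positivity) : 0 ≤ (p1 + p2 + p3 - 3) / (3 * P.a * P.w ^ 2 * P.b ^ 2 * D))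
    have e7 : c * D ^ 2 * ((12 * qm1 P.z P.w + 24 * qm2 P.z P.w) * P.b ^ 2)
          * ((p1 + p2 + p3 - 3) / (3 * P.a * P.w ^ 2 * P.b ^ 2 * D))
        = c * (p1 + p2 + p3 - 3) * (D / (3 * P.a * P.w ^ 2) * (12 * qm1 P.z P.w + 24 * qm2 P.z P.w)) := by
      field_simp
    have e8 : c1 * (9 * P.z * l ^ 2 * P.w ^ 2) * ((p1 + p2 + p3 - 3) / (3 * P.a * P.w ^ 2 * P.b ^ 2 * D))
        = -(3 * P.z * l ^ 2 / (D * P.a * P.b ^ 2) * (-c1 * (p1 + p2 + p3 - 3))) := by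
      field_simp
      ring
    rw [e7, e8] at n3
    linarith

end Pool.Agent.K4H81.Rob
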