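import Pool.Agent.Helper238.Rob.U
import Pool.Agent.K4H81.Rob.Alg
import Pool.Agent.K4H81.Rob.Cases

set_option autoImplicit false

open MeasureTheory Set

namespace Pool.Agent.K4H81.Rob

open Pool.Agent.Helper238 Pool.Agent.Helper238.Rob

/-- the algebraic part for one parameter -/
theorem alg_q (P : Par) : ∃ r' c1 : ℝ, P.r < r' ∧ 0 < c1 ∧ ∀ p1 p2 p3 : ℝ, 0 < p1 → 0 < p2 → 0 < p3 →
    3 ≤ (p1 + p2 + p3) ^ 2 - 2 * (p1 ^ 2 + p2 ^ 2 + p3 ^ 2) →
    4 * p2 ^ 2 * p3 ^ 2 - (p2 ^ 2 + p3 ^ 2 - p1 ^ 2) ^ 2 = 3 →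
    p1 + p2 + p3 ≤ 3 * r' →
    p2 ^ 2 + p3 ^ 2 - p1 ^ 2 ≤ (1 - 2 * P.z) * (2 * p2 * p3) →
    p3 ^ 2 + p1 ^ 2 - p2 ^ 2 ≤ (1 - 2 * P.z) * (2 * p3 * p1) →
    p1 ^ 2 + p2 ^ 2 - p3 ^ 2 ≤ (1 - 2 * P.z) * (2 * p1 * p2) →
    ∃ a1 a2 a3 : ℝ, (0 < a1 ∧ a1 ≤ 2) ∧ (0 < a2 ∧ a2 ≤ 2) ∧ (0 < a3 ∧ a3 ≤ 2) ∧
      Qh P.z P.w p1 p2 p3 a1 a2 a3 ≤ -c1 * (p1 + p2 + p3 - 3) := by
  have hz := P.z_pos
  have hz4 := P.z_lt
  have hw := P.w_pos
  have h2z : 0 < 1 - 2 * P.z := by linarith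
  by_cases cz : P.z ≤ 1 / 6
  · obtain ⟨d, hd⟩ : ∃ d, d = 6 * (1 - 2 * P.z) - 3 / 2 * P.w - 3 / 4 * (1 - P.z) * P.w ^ 2 := ⟨_, rfl⟩
    have key := keyI hz cz P.r_lower P.r_upper P.w_r hd
    obtain ⟨K, hK⟩ : ∃ K, K = 2 * (1 - 2 * P.z) * (P.w + 4) := ⟨_, rfl⟩
    have hK0 : 0 < K := by rw [hK]; positivity
    obtain ⟨r', hr'⟩ : ∃ r', r' = P.r + (K - (P.r + 1) * d) / (2 * (|d| + 1)) := ⟨_, rfl⟩
    rw [← hK] at key
    have hg : 0 < K - (P.r + 1) * d := by linarith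
    have ha := abs_nonneg d
    have hr1 : P.r < r' := by
      rw [hr']
      have : 0 < (K - (P.r + 1) * d) / (2 * (|d| + 1)) := by positivity
      linarith
    have hk2 : (r' + 1) * d < K := by
      have e : (r' + 1) * d = (P.r + 1) * d + (K - (P.r + 1) * d) / (2 * (|d| + 1)) * d := by
        rw [hr']; ring
      have e2 : (K - (P.r + 1) * d) / (2 * (|d| + 1)) * d ≤ (K - (P.r + 1) * d) / 2 := by
        rw [div_mul_eq_mul_div, div_le_div_iff₀ (by positivity) (by norm_num)]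
        have := mul_le_mul_of_nonneg_left (le_abs_self d) hg.le
        nlinarith
      rw [e]; linarith
    refine ⟨r', 3 / 2 * min K (K - (r' + 1) * d), hr1, ?_, ?_⟩
    · have : 0 < min K (K - (r' + 1) * d) := lt_min hK0 (by linarith)
      positivity
    · intro p1 p2 p3 q1 q2 q3 hf _ hr _ _ _
      refine ⟨1, 1, 1, ⟨one_pos, by norm_num⟩, ⟨one_pos, by norm_num⟩, ⟨one_pos, by norm_num⟩, ?_⟩
      have := caseI_q (r' := r') hz cz hw hd q1 q2 q3 hf hr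
      rw [← hK] at this
      exact this
  · push Not at cz
    refine ⟨P.r + 1, 3 * (1 - 2 * P.z) * (P.w + 4), by linarith, by positivity, ?_⟩
    intro p1 p2 p3 q1 q2 q3 hf ar _ n1 n2 n3
    exact caseII_q cz.le hz4 hw.le (P.w_le_one cz.le) q1 q2 q3 (sigma_ge q1 q2 q3 hf) ar n1 n2 n3

theorem upper_q (P : Par) {l D : ℝ} (hl : 0 < l) (hD0 : 0 < D) (hDl : D ^ 2 = 3 / 4 * l ^ 4) :
    ∃ c : ℝ, 0 < c ∧ ∀ A B C : E2, cr (B - A) (C - A) ≠ 0 → |cr (B - A) (C - A)| = D →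
      lam1 (interior (tri A B C)) (-(P.k * P.s * l / D))
        ≤ -((P.k * l / D) ^ 2 + c * ((dist B C + dist C A + dist A B) / l - 3)) := by
  obtain ⟨r', c1, hr', hc1, H⟩ := alg_q P
  have hk := P.k_pos
  have hs := P.s_pos
  have hz := P.z_pos
  have hz4 := P.z_lt
  have hw := P.w_pos
  have hb := P.b_pos
  have hr0 : 0 < P.r := by have := P.r_lower; linarith
  have hr'0 : 0 < r' := by linarith
  have m1 : 0 < qm1 P.z P.w := by
    unfold qm1
    have : 0 < 1 - P.z := by linarith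
    have : 0 < 1 - 4 * P.z := by linarith
    positivity
  have m2 : 0 < qm2 P.z P.w := by
    unfold qm2
    have : 0 < 1 - P.z := by linarith
    have : 0 < 1 - 4 * P.z := by linarith
    positivity
  obtain ⟨g1, hg1⟩ : ∃ g1, g1 = 2 * P.k * P.s * l ^ 2 * (1 - P.r / r') / D ^ 2 := ⟨_, rfl⟩
  obtain ⟨g2, hg2⟩ : ∃ g2, g2 = 2 * P.k * P.s * l ^ 2 * Real.exp (-(8 * (P.k / (2 * P.s)) * r')) / D ^ 2 :=
    ⟨_, rfl⟩
  obtain ⟨g3, hg3⟩ : ∃ g3, g3 = c1 * (9 * P.z * l ^ 2 * P.w ^ 2)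
      / (D ^ 2 * ((12 * qm1 P.z P.w + 24 * qm2 P.z P.w) * P.b ^ 2)) := ⟨_, rfl⟩
  have q1 : P.r / r' < 1 := by rw [div_lt_one hr'0]; exact hr'
  have p1 : 0 < g1 := by
    rw [hg1]
    have : 0 < 1 - P.r / r' := by linarith
    positivity
  have p2 : 0 < g2 := by
    rw [hg2]
    have := Real.exp_pos (-(8 * (P.k / (2 * P.s)) * r'))
    positivity
  have p3 : 0 < g3 := by rw [hg3]; positivity
  have e1 : g1 * D ^ 2 = 2 * P.k * P.s * l ^ 2 * (1 - P.r / r') := by rw [hg1]; field_simp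
  have e2 : g2 * D ^ 2 = 2 * P.k * P.s * l ^ 2 * Real.exp (-(8 * (P.k / (2 * P.s)) * r')) := by
    rw [hg2]; field_simp
  have e3 : g3 * D ^ 2 * ((12 * qm1 P.z P.w + 24 * qm2 P.z P.w) * P.b ^ 2)
      = c1 * (9 * P.z * l ^ 2 * P.w ^ 2) := by
    rw [hg3]; field_simp
  obtain ⟨c, hc⟩ : ∃ c, c = min g1 (min g2 g3) := ⟨_, rfl⟩
  have hc0 : 0 < c := by rw [hc]; exact lt_min p1 (lt_min p2 p3)
  have hcg1 : c ≤ g1 := by rw [hc]; exact min_le_left _ _
  have hcg2 : c ≤ g2 := by rw [hc]; exact (min_le_right _ _).trans (min_le_left _ _)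
  have hcg3 : c ≤ g3 := by rw [hc]; exact (min_le_right _ _).trans (min_le_right _ _)
  refine ⟨c, hc0, ?_⟩
  intro A B C hD hDe
  have harea : cr (B - A) (C - A) ^ 2 = 3 / 4 * l ^ 4 := by rw [← hDl, ← hDe, sq_abs]
  have hB : cr (C - B) (A - B) ≠ 0 := by rw [cr_cyc A B C]; exact hD
  have hC : cr (A - C) (B - C) ≠ 0 := by rw [cr_cyc2 A B C]; exact hD
  obtain ⟨p1, hp1⟩ : ∃ p1, p1 = dist B C / l := ⟨_, rfl⟩
  obtain ⟨p2, hp2⟩ : ∃ p2, p2 = dist C A / l := ⟨_, rfl⟩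
  obtain ⟨p3, hp3⟩ : ∃ p3, p3 = dist A B / l := ⟨_, rfl⟩
  have h1 : dist B C = l * p1 := by rw [hp1]; field_simp
  have h2 : dist C A = l * p2 := by rw [hp2]; field_simp
  have h3 : dist A B = l * p3 := by rw [hp3]; field_simp
  have q1 : 0 < p1 := by rw [hp1]; have := dist_pos.2 (ne_of_cr hB); positivity
  have q2 : 0 < p2 := by rw [hp2]; have := dist_pos.2 (ne_of_cr hC); positivity
  have q3 : 0 < p3 := by rw [hp3]; have := dist_pos.2 (ne_of_cr hD); positivity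
  have t1 : p1 ≤ p2 + p3 := by
    have := dist_triangle B A C
    rw [dist_comm B A, dist_comm A C, h1, h2, h3] at this
    nlinarith
  have t2 : p2 ≤ p1 + p3 := by
    have := dist_triangle C B A
    rw [dist_comm C B, dist_comm B A, h1, h2, h3] at this
    nlinarith
  have t3 : p3 ≤ p1 + p2 := by
    have := dist_triangle A C B
    rw [dist_comm A C, dist_comm C B, h1, h2, h3] at this
    nlinarith
  have ar : 4 * p2 ^ 2 * p3 ^ 2 - (p2 ^ 2 + p3 ^ 2 - p1 ^ 2) ^ 2 = 3 := by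
    have hL := lagrange A B C
    have l1 : sd (B - C) = (l * p1) ^ 2 := by rw [← norm_sq, ← dist_eq_norm, h1]
    have l2 : sd (C - A) = (l * p2) ^ 2 := by rw [← norm_sq, ← dist_eq_norm, h2]
    have l3 : sd (B - A) = (l * p3) ^ 2 := by rw [← norm_sq, ← dist_eq_norm, dist_comm, h3]
    rw [l1, l2, l3, harea] at hL
    have e : l ^ 4 * (4 * p2 ^ 2 * p3 ^ 2 - (p2 ^ 2 + p3 ^ 2 - p1 ^ 2) ^ 2) = l ^ 4 * 3 := by
      linear_combination hL
    exact mul_left_cancel₀ (by positivity) e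
  have ar2 : 4 * p3 ^ 2 * p1 ^ 2 - (p3 ^ 2 + p1 ^ 2 - p2 ^ 2) ^ 2 = 3 := by linear_combination ar
  have ar3 : 4 * p1 ^ 2 * p2 ^ 2 - (p1 ^ 2 + p2 ^ 2 - p3 ^ 2) ^ 2 = 3 := by linear_combination ar
  have hf := HF' t1 t2 t3 ar
  have hσ := sigma_ge q1 q2 q3 hf
  have esum : (dist B C + dist C A + dist A B) / l = p1 + p2 + p3 := by
    rw [hp1, hp2, hp3]; ring
  rw [esum]
  by_cases c0 : 3 * r' ≤ p1 + p2 + p3
  · have := const_q hD P hl h1 h2 h3 hr' hr0 hσ c0 (c := c) (by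
      rw [hDe, ← e1]; gcongr)
    rw [hDe] at this
    exact this
  push Not at c0
  -- lower bounds for the sides
  have low : ∀ x y : ℝ, 0 < x → 0 < y → 3 ≤ 4 * x ^ 2 * y ^ 2 → y ≤ 3 * r' → 1 ≤ 4 * r' * x := by
    intro x y hx hy h hy3
    have h5 : 3 / 4 ≤ x * y := by
      by_contra hcon
      push Not at hcon
      have hxy : 0 < x * y := mul_pos hx hy
      nlinarith
    have h6 : x * y ≤ x * (3 * r') := mul_le_mul_of_nonneg_left hy3 hx.le
    linarith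
  have u12 : 3 ≤ 4 * p1 ^ 2 * p2 ^ 2 := by nlinarith [sq_nonneg (p1 ^ 2 + p2 ^ 2 - p3 ^ 2)]
  have u23 : 3 ≤ 4 * p2 ^ 2 * p3 ^ 2 := by nlinarith [sq_nonneg (p2 ^ 2 + p3 ^ 2 - p1 ^ 2)]
  have u31 : 3 ≤ 4 * p3 ^ 2 * p1 ^ 2 := by nlinarith [sq_nonneg (p3 ^ 2 + p1 ^ 2 - p2 ^ 2)]
  have b1 : 1 ≤ 4 * r' * p1 := low p1 p2 q1 q2 u12 (by linarith)
  have b2 : 1 ≤ 4 * r' * p2 := low p2 p3 q2 q3 u23 (by linarith)
  have b3 : 1 ≤ 4 * r' * p3 := low p3 p1 q3 q1 u31 (by linarith)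
  have hcc : c * D ^ 2 ≤ 2 * P.k * P.s * l ^ 2 * Real.exp (-(8 * (P.k / (2 * P.s)) * r')) := by
    rw [← e2]; gcongr
  by_cases c1' : (1 - 2 * P.z) * (2 * p2 * p3) ≤ p2 ^ 2 + p3 ^ 2 - p1 ^ 2
  · have := corner_q hD P hl hr'0 b2 b3 hc0.le (by rw [hDe]; exact hcc) hσ h1 h2 h3 q1 q2 q3 c1'
    rw [hDe] at this
    exact this
  push Not at c1'
  by_cases c2 : (1 - 2 * P.z) * (2 * p3 * p1) ≤ p3 ^ 2 + p1 ^ 2 - p2 ^ 2
  · have := corner_q (A := B) (B := C) (C := A) hB P hl hr'0 b3 b1 hc0.le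
      (by rw [cr_cyc A B C, hDe]; exact hcc) (by linarith) h2 h3 h1 q2 q3 q1 c2
    rw [cr_cyc A B C, tri_cyc, hDe] at this
    have e : p2 + p3 + p1 = p1 + p2 + p3 := by ring
    rw [e] at this
    exact this
  push Not at c2
  by_cases c3 : (1 - 2 * P.z) * (2 * p1 * p2) ≤ p1 ^ 2 + p2 ^ 2 - p3 ^ 2
  · have := corner_q (A := C) (B := A) (C := B) hC P hl hr'0 b1 b2 hc0.le
      (by rw [cr_cyc2 A B C, hDe]; exact hcc) (by linarith) h3 h1 h2 q3 q1 q2 c3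
    rw [cr_cyc2 A B C, tri_cyc2, hDe] at this
    have e : p3 + p1 + p2 = p1 + p2 + p3 := by ring
    rw [e] at this
    exact this
  push Not at c3
  obtain ⟨a1, a2, a3, ha1, ha2, ha3, hQ⟩ := H p1 p2 p3 q1 q2 q3 hf ar c0.le c1'.le c2.le c3.le
  have := tf_q hD P hl h1 h2 h3 ha1 ha2 ha3 hσ hc0.le (c1 := c1) (by
    rw [hDe, ← e3]; gcongr) hQ
  rw [hDe] at this
  exact this

theorem sigma_eq {p1 p2 p3 : ℝ} (h : 3 ≤ (p1 + p2 + p3) ^ 2 - 2 * (p1 ^ 2 + p2 ^ 2 + p3 ^ 2))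
    (h3 : p1 + p2 + p3 = 3) : p1 = 1 ∧ p2 = 1 ∧ p3 = 1 := by
  rw [h3] at h
  have h4 : (p1 - 1) ^ 2 + (p2 - 1) ^ 2 + (p3 - 1) ^ 2 ≤ 0 := by nlinarith
  have a1 := sq_nonneg (p1 - 1)
  have a2 := sq_nonneg (p2 - 1)
  have a3 := sq_nonneg (p3 - 1)
  refine ⟨?_, ?_, ?_⟩
  · have : (p1 - 1) ^ 2 = 0 := by linarith
    have := pow_eq_zero_iff (two_ne_zero) |>.1 this
    linarith
  · have : (p2 - 1) ^ 2 = 0 := by linarith
    have := pow_eq_zero_iff (two_ne_zero) |>.1 this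
    linarith
  · have : (p3 - 1) ^ 2 = 0 := by linarith
    have := pow_eq_zero_iff (two_ne_zero) |>.1 this
    linarith

/-- the isoperimetric inequality for triangles, with the case of equality -/
theorem iso {A B C : E2} (hD : cr (B - A) (C - A) ≠ 0) {l : ℝ} (hl : 0 < l)
    (harea : cr (B - A) (C - A) ^ 2 = 3 / 4 * l ^ 4) :
    3 * l ≤ dist B C + dist C A + dist A B ∧
      (dist B C + dist C A + dist A B = 3 * l → dist B C = l ∧ dist C A = l ∧ dist A B = l) := by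
  have hB : cr (C - B) (A - B) ≠ 0 := by rw [cr_cyc A B C]; exact hD
  have hC : cr (A - C) (B - C) ≠ 0 := by rw [cr_cyc2 A B C]; exact hD
  obtain ⟨p1, hp1⟩ : ∃ p1, p1 = dist B C / l := ⟨_, rfl⟩
  obtain ⟨p2, hp2⟩ : ∃ p2, p2 = dist C A / l := ⟨_, rfl⟩
  obtain ⟨p3, hp3⟩ : ∃ p3, p3 = dist A B / l := ⟨_, rfl⟩
  have h1 : dist B C = l * p1 := by rw [hp1]; field_simp
  have h2 : dist C A = l * p2 := by rw [hp2]; field_simp
  have h3 : dist A B = l * p3 := by rw [hp3]; field_simp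
  have q1 : 0 < p1 := by rw [hp1]; have := dist_pos.2 (ne_of_cr hB); positivity
  have q2 : 0 < p2 := by rw [hp2]; have := dist_pos.2 (ne_of_cr hC); positivity
  have q3 : 0 < p3 := by rw [hp3]; have := dist_pos.2 (ne_of_cr hD); positivity
  have t1 : p1 ≤ p2 + p3 := by
    have := dist_triangle B A C
    rw [dist_comm B A, dist_comm A C, h1, h2, h3] at this
    nlinarith
  have t2 : p2 ≤ p1 + p3 := by
    have := dist_triangle C B A
    rw [dist_comm C B, dist_comm B A, h1, h2, h3] at this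
    nlinarith
  have t3 : p3 ≤ p1 + p2 := by
    have := dist_triangle A C B
    rw [dist_comm A C, dist_comm C B, h1, h2, h3] at this
    nlinarith
  have ar : 4 * p2 ^ 2 * p3 ^ 2 - (p2 ^ 2 + p3 ^ 2 - p1 ^ 2) ^ 2 = 3 := by
    have hL := lagrange A B C
    have l1 : sd (B - C) = (l * p1) ^ 2 := by rw [← norm_sq, ← dist_eq_norm, h1]
    have l2 : sd (C - A) = (l * p2) ^ 2 := by rw [← norm_sq, ← dist_eq_norm, h2]
    have l3 : sd (B - A) = (l * p3) ^ 2 := by rw [← norm_sq, ← dist_eq_norm, dist_comm, h3]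
    rw [l1, l2, l3, harea] at hL
    have e : l ^ 4 * (4 * p2 ^ 2 * p3 ^ 2 - (p2 ^ 2 + p3 ^ 2 - p1 ^ 2) ^ 2) = l ^ 4 * 3 := by
      linear_combination hL
    exact mul_left_cancel₀ (by positivity) e
  have hf := HF' t1 t2 t3 ar
  have hσ := sigma_ge q1 q2 q3 hf
  rw [h1, h2, h3]
  constructor
  · nlinarith
  · intro h
    have hs : p1 + p2 + p3 = 3 := by
      have : l * (p1 + p2 + p3) = l * 3 := by linarith
      exact mul_left_cancel₀ hl.ne' this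
    obtain ⟨x, y, z⟩ := sigma_eq hf hs
    rw [x, y, z]; simp

/-- the perimeter as a Hausdorff measure -/
theorem perim {A B C : E2} (hD : cr (B - A) (C - A) ≠ 0) :
    (Measure.hausdorffMeasure 1 (frontier (interior (tri A B C)))).toReal
      = dist B C + dist C A + dist A B := by
  have h := integral_frontier hD (F := fun _ => (1:ℝ)) continuous_const
  have e2 : ∀ Q R : E2, sI (fun _ => (1:ℝ)) Q R = 1 := by intro Q R; simp [sI]
  simp only [e2, mul_one] at h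
  simp only [integral_const, smul_eq_mul, mul_one, Measure.real, Measure.restrict_apply_univ] at h
  have h' : (Measure.hausdorffMeasure 1 (frontier (interior (tri A B C)))).toReal
      = dist A B + dist B C + dist C A := h
  rw [h']; ring

theorem side_of_equi {A B C : E2} (e1 : dist A B = dist B C) (e2 : dist B C = dist C A) :
    cr (B - A) (C - A) ^ 2 = 3 / 4 * (dist A B) ^ 4 := by
  obtain ⟨l, hl⟩ : ∃ l, l = dist A B := ⟨_, rfl⟩
  have d1 : dist A B = l := hl.symm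
  have d2 : dist B C = l := by rw [← e1]; exact d1
  have d3 : dist C A = l := by rw [← e2]; exact d2
  have hL := lagrange A B C
  have l1 : sd (B - C) = l ^ 2 := by rw [← norm_sq, ← dist_eq_norm, d2]
  have l2 : sd (C - A) = l ^ 2 := by rw [← norm_sq, ← dist_eq_norm, d3]
  have l3 : sd (B - A) = l ^ 2 := by rw [← norm_sq, ← dist_eq_norm, dist_comm, d1]
  rw [l1, l2, l3] at hL
  rw [d1]
  linear_combination (-1 / 4) * hL

/-- the quantitative inequality -/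
theorem main_q {α : ℝ} (hα : α < 0) {V : ℝ} (hV : 0 < V) :
    ∃ c : ℝ, 0 < c ∧ ∀ A B C A' B' C' : E2, cr (B - A) (C - A) ≠ 0 → cr (B' - A') (C' - A') ≠ 0 →
      dist A' B' = dist B' C' → dist B' C' = dist C' A' →
      |cr (B - A) (C - A)| = 2 * V → |cr (B' - A') (C' - A')| = 2 * V →
      lam1 (interior (tri A B C)) α
        + c * ((dist B C + dist C A + dist A B) - (dist B' C' + dist C' A' + dist A' B'))
        ≤ lam1 (interior (tri A' B' C')) α := by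
  obtain ⟨D, hDD⟩ : ∃ D, D = 2 * V := ⟨_, rfl⟩
  have hD0 : 0 < D := by rw [hDD]; positivity
  obtain ⟨l, hl⟩ : ∃ l, l = Real.sqrt (Real.sqrt (4 / 3 * D ^ 2)) := ⟨_, rfl⟩
  have hl0 : 0 < l := by rw [hl]; apply Real.sqrt_pos.2; apply Real.sqrt_pos.2; positivity
  have hl4 : l ^ 4 = 4 / 3 * D ^ 2 := by
    have h1 : l ^ 2 = Real.sqrt (4 / 3 * D ^ 2) := by
      rw [hl]; exact Real.sq_sqrt (Real.sqrt_nonneg _)
    have h2 : (l ^ 2) ^ 2 = 4 / 3 * D ^ 2 := by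
      rw [h1]; exact Real.sq_sqrt (by positivity)
    rw [← h2]; ring
  have hDl : D ^ 2 = 3 / 4 * l ^ 4 := by rw [hl4]; ring
  obtain ⟨P, hP⟩ := exists_par (c := -α * D / l) (by
    have : 0 < -α := by linarith
    positivity)
  have hα' : α = -(P.k * P.s * l / D) := by rw [hP]; field_simp
  obtain ⟨c, hc, H⟩ := upper_q P hl0 hD0 hDl
  refine ⟨c / l, by positivity, ?_⟩
  intro A B C A' B' C' hT hE e1 e2 v1 v2
  rw [← hDD] at v1 v2
  have hup := H A B C hT v1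
  rw [← hα'] at hup
  have hside := side_of_equi (A := A') (B := B') (C := C') e1 e2
  rw [← sq_abs, v2, hDl] at hside
  have hll : dist A' B' = l := by
    have h0 : (dist A' B') ^ 4 = l ^ 4 := by linarith
    exact (pow_left_inj₀ dist_nonneg hl0.le (by norm_num)).1 h0
  have d2 : dist B' C' = l := by rw [← e1]; exact hll
  have d3 : dist C' A' = l := by rw [← e2]; exact d2
  have hlow : -(P.k * l / D) ^ 2 ≤ lam1 (interior (tri A' B' C')) α := by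
    apply le_lam1 hE
    intro u hu
    have := lower hE P hll d2 d3 hu
    rw [v2, ← hα'] at this
    exact this
  rw [hll, d2, d3]
  have e : c * ((dist B C + dist C A + dist A B) / l - 3)
      = c / l * (dist B C + dist C A + dist A B - (l + l + l)) := by field_simp; ring
  rw [← e]
  linarith

end Pool.Agent.K4H81.Rob
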